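import Mathlib
import Pool.Agent.H3.OneRadius

/-!
# Q2 of MP_a19bc9_an: a bounded real-analytic function with the one-radius property need not be
M-harmonic, for every dimension `n ≥ 1`.
-/

set_option autoImplicit false

open MeasureTheory

namespace Pool.Agent.Results.MP_a19bc9_an.RealAnalytic

/-- The open unit ball `B` of `ℂⁿ` for the Euclidean norm. -/
def unitBall (n : ℕ) : Set (Fin n → ℂ) := {z | ∑ j, Complex.normSq (z j) < 1}

/-- The unit sphere `S` of `ℂⁿ`. -/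
def unitSphere (n : ℕ) : Set (Fin n → ℂ) := {z | ∑ j, Complex.normSq (z j) = 1}

/-- `⟨w,z⟩ = ∑ⱼ wⱼ conj(zⱼ)` -/
noncomputable def herm {n : ℕ} (w z : Fin n → ℂ) : ℂ := ∑ j, w j * starRingEnd ℂ (z j)

/-- `P_z w = (⟨w,z⟩/⟨z,z⟩) z`, which is `0` for `z = 0` -/
noncomputable def proj {n : ℕ} (z w : Fin n → ℂ) : Fin n → ℂ := (herm w z / herm z z) • z

/-- The involutive automorphism `φ_z` of the ball:
`φ_z(w) = (z - P_z w - s_z (w - P_z w)) / (1 - ⟨w,z⟩)` with `s_z = (1 - |z|²)^{1/2}`. -/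
noncomputable def invol {n : ℕ} (z w : Fin n → ℂ) : Fin n → ℂ :=
  (1 - herm w z)⁻¹ •
    (z - proj z w - ((Real.sqrt (1 - ∑ j, Complex.normSq (z j)) : ℝ) : ℂ) • (w - proj z w))

/-- The mean of `u ∘ φ_z` over the sphere of radius `r`, with respect to `σ`. -/
noncomputable def sphereMean {n : ℕ} (σ : Measure (Fin n → ℂ)) (u : (Fin n → ℂ) → ℝ)
    (z : Fin n → ℂ) (r : ℝ) : ℝ :=
  ∫ ζ, u (invol z ((r : ℂ) • ζ)) ∂σ

/-- For every `n ≥ 1` there is a real-analytic function `u` on the ball with `|u| < 1` such that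
for every Borel probability measure `σ` carried by the unit sphere (for instance the
rotation-invariant one): at every `z` in the ball the mean value property holds for some radius
`r ∈ (0,1)`, and there is a point of the ball and a radius in `(0,1)` for which it fails. -/
theorem result : ∀ n : ℕ, 1 ≤ n → ∃ u : (Fin n → ℂ) → ℝ,
    AnalyticOnNhd ℝ u (unitBall n) ∧ (∀ z ∈ unitBall n, |u z| < 1) ∧
    ∀ σ : Measure (Fin n → ℂ), IsProbabilityMeasure σ → σ (unitSphere n)ᶜ = 0 →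
      (∀ z ∈ unitBall n, ∃ r : ℝ, 0 < r ∧ r < 1 ∧ sphereMean σ u z r = u z) ∧
      (∃ z ∈ unitBall n, ∃ r : ℝ, 0 < r ∧ r < 1 ∧ sphereMean σ u z r ≠ u z) := by
  intro n _
  refine ⟨Pool.Agent.H3.OneRadius.u, ?_, ?_, ?_⟩
  · intro z hz
    exact Pool.Agent.H3.OneRadius.analyticAt_u z hz
  · intro z hz
    exact Pool.Agent.H3.OneRadius.abs_u_lt z hz
  · intro σ hσ hS
    have hae : ∀ᵐ x ∂σ, Pool.Agent.H3.OneRadius.nsq ((fun x => x : (Fin n → ℂ) → (Fin n → ℂ)) x) = 1 := by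
      rw [ae_iff]; exact hS
    constructor
    · intro z hz
      obtain ⟨r, h0, h1, hr⟩ :=
        Pool.Agent.H3.OneRadius.one_radius σ (fun x => x) measurable_id hae z hz
      exact ⟨r, h0, h1, hr.symm⟩
    · obtain ⟨r, h0, h1, hr⟩ := Pool.Agent.H3.OneRadius.not_mean (n := n) σ (fun x => x) hae
      exact ⟨0, by simp [unitBall], r, h0, h1, fun h => hr h.symm⟩

end Pool.Agent.Results.MP_a19bc9_an.RealAnalytic
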